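import Pool.Agent.helper96.FPP.Final

/-!
# The environment seen along an infinite geodesic is singular to the law of the environment

First-passage percolation on `ℤ²` with i.i.d. weights of continuous law `μ`,
`E[min(ω₁,…,ω₄)²] < ∞`.  Almost surely, for every infinite geodesic `g`: if the empirical measures
of the environment seen along `g` converge weakly to a probability measure `ν`, then `ν` is
mutually singular with respect to the law `P` of the environment.

Idea.  Along an ultrafilter of times at which `T(v₀, vₙ)` is close to the time constant, the
environment together with the next steps has limit laws; their part that is absolutely continuous
with respect to `P` is a stationary flow on the edges of `ℤ²`.  Let `ρ` be a limit of functionals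
supporting the limit norm at `vₙ - v₀`.  By the van den Berg-Kesten inequality every self-avoiding
path has few blocks that are faster than the time constant, so the flow is balanced: `ω_e` and
`ρ · e` have the same mean.  Telescoping the averages over `t ∈ [0, W]` of the passage times to the
half planes `{z | ± ρ · z ≥ t}` then shows that along suitable `W_j → ∞` every edge that carries
flow is, in both directions, a gradient edge of the averaged passage times, so that with positive
probability there is a bi-infinite path of such edges through the origin.  For a fixed
deterministic `ρ` and `W_j` such paths do not exist: they are vertex-disjoint, a mass transport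
argument shows that lowering the weights on one of them never creates a shortcut for another one,
hence two of them can stay close only for a bounded time, and a volume count gives a contradiction.
No planarity, no assumption on the limit shape and no coalescence result is used.
-/

open MeasureTheory Filter Topology
open scoped NNReal ENNReal BoundedContinuousFunction

namespace Pool.Agent.Results.MP_b5523b_pr.EnvSingular

/-- `P`-almost surely, for every infinite geodesic `g` and every probability measure `ν` that is
the weak limit of the empirical measures of the environment seen along `g`, `ν` is mutually
singular with respect to `P`. -/
theorem result (μ : Measure ℝ≥0) [IsProbabilityMeasure μ] (hc : ∀ s : ℝ≥0, μ {s} = 0)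
    (hμ : ∫⁻ x : Fin 4 → ℝ≥0, (⨅ i, (x i : ℝ≥0∞)) ^ 2 ∂(Measure.pi fun _ => μ) < ∞) :
    ∀ᵐ ω ∂(Measure.infinitePi fun _ : FPP.E => μ),
      ∀ g : ℕ → FPP.V, FPP.IsGeodesicRay ω g →
        ∀ ν : Measure FPP.Om, IsProbabilityMeasure ν → FPP.IsWeakLimit ω g ν →
          ν ⟂ₘ (Measure.infinitePi fun _ : FPP.E => μ) :=
  FPP.main μ hc hμ

end Pool.Agent.Results.MP_b5523b_pr.EnvSingular
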